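import Pool.Agent.H282R3.FP.GrowS
import Pool.Agent.H282R3.FP.Main
import Pool.Agent.H282R3.FP.NewCol
import Pool.Agent.H282R3.FP.NewPoint
import Pool.Agent.H282R3.FP.Closed
import Pool.Agent.H282R3.FP.PI
import Pool.Agent.H282R3.FP.Orth
import Pool.Agent.H282R3.FP.Small
import Pool.Agent.H304R3.FP.Seq
import Pool.Agent.H884R4.FPLimit
import Pool.Agent.H102R3.FP.Decide

/-!
# Non-Tukey-top ultrafilters with a Tukey-top Fubini product

There is a forcing notion all of whose conditions force that `ω₁` is preserved, that the continuum
hypothesis holds, that no new subsets of `ω` are added, and that there are nonprincipal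
ultrafilters `U`, `V` on `ω` which are not Tukey-top while the Fubini product `U · V` is Tukey-top.
So ZFC does not prove that Fubini products (or Fubini sums) of non-Tukey-top ultrafilters are
non-Tukey-top.

Idea of the proof. The conditions are countable approximations. A condition has a countable
ordinal `d`, a function `s` from `ω₁` to the two sides (of which only the values up to `d`
matter), for each side `b` sets `C b x` (`x < d`), which are outside of the ultrafilter of the side
`b`, and a sequence of columns `(A b n, E b n)`; `A b n` works off `E b n`, i.e. it has an infinite
intersection with `⋂ x ∈ t, C b x` for finite `t ⊆ d \ E b n`. A set is put into the ultrafilter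
if it almost contains almost all the columns. The main requirement is that all the limit points
`l` of `E b n` satisfy `s l = b`. If infinitely many of the complements of the `C b x`, `x ∈ I`,
have an intersection in the ultrafilter then `I` is contained in almost all `E b n`; this cannot
happen for the two sides at once, as `I` has a limit point. Therefore the product is Tukey-top.
A fusion argument shows that the ultrafilter of a single side is not Tukey-top: for a name of an
`ω₁`-sequence of its members some condition decides infinitely many of them and forces that their
intersection is in the ultrafilter.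
-/

set_option autoImplicit false

namespace Pool.Agent.Results.MP_0d317a_lc.FubiniProductTop

open Pool.Agent.H282R3.FP

theorem result :
    ∃ (P : Type) (_ : Preorder P), Nonempty P ∧ ∀ p : P,
      p ∈ Pool.Agent.Helper292.ForceCH.OmegaOnePreserved P ∧
      p ∈ Pool.Agent.Helper292.ForceCH.CHHolds P ∧ p ∈ NoNewReals P ∧ p ∈ Counterexample P := by
  have hOm : OmegaOneLike Pool.Agent.Helper292.ForceCH.Om := taskOm
  have hMain : TaskMain Pool.Agent.Helper292.ForceCH.Om :=
    taskMain taskGrow taskLimit (taskPI _) (Pool.Agent.H304R3.FP.taskSeq _)
      (taskNewPoint taskGrow taskLimit (taskPI _) (Pool.Agent.H304R3.FP.taskSeq _))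
      (taskNewCol taskGrow taskLimit (taskPI _) (Pool.Agent.H304R3.FP.taskSeq _) (taskRecord _))
  exact final_code (growS hOm) taskClosed taskOrth taskDecide hMain (taskInit _) hOm

end Pool.Agent.Results.MP_0d317a_lc.FubiniProductTop
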